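import Pool.Agent.Q172.Fan.Defs

/-! Continuity of the retraction. -/

set_option autoImplicit false

open Set Topology TopologicalSpace Filter Metric

namespace Q172.Fan

variable {Z : Set ℝ}

lemma lo_mem (A : NC) : ∃ x ∈ A, x.2 = lo A := by
  obtain ⟨x, hx, h⟩ := (A.isCompact.image continuous_snd).sInf_mem (A.nonempty.image _)
  exact ⟨x, hx, h⟩

lemma hi_mem (A : NC) : ∃ x ∈ A, x.2 = hi A := by
  obtain ⟨x, hx, h⟩ := (A.isCompact.image continuous_snd).sSup_mem (A.nonempty.image _)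
  exact ⟨x, hx, h⟩

lemma lo_le (A : NC) {x : ℝ × ℝ} (hx : x ∈ A) : lo A ≤ x.2 :=
  csInf_le (A.isCompact.image continuous_snd).bddBelow ⟨x, hx, rfl⟩

lemma le_hi (A : NC) {x : ℝ × ℝ} (hx : x ∈ A) : x.2 ≤ hi A :=
  le_csSup (A.isCompact.image continuous_snd).bddAbove ⟨x, hx, rfl⟩

lemma lo_le_hi (A : NC) : lo A ≤ hi A := by
  obtain ⟨x, hx, h⟩ := lo_mem A
  exact h ▸ le_hi A hx

lemma nonneg2 {A : NC} (hA : (A : Set (ℝ × ℝ)) ⊆ Fan Z) {x : ℝ × ℝ} (hx : x ∈ A) : 0 ≤ x.2 := by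
  obtain ⟨a, _, s, hs, rfl⟩ := hA hx
  exact hs.1

lemma le_one2 {A : NC} (hA : (A : Set (ℝ × ℝ)) ⊆ Fan Z) {x : ℝ × ℝ} (hx : x ∈ A) : x.2 ≤ 1 := by
  obtain ⟨a, _, s, hs, rfl⟩ := hA hx
  exact hs.2

lemma pos2 {A : NC} (hA : (A : Set (ℝ × ℝ)) ⊆ Fan Z) (h0 : (0, 0) ∉ A) {x : ℝ × ℝ} (hx : x ∈ A) :
    0 < x.2 := by
  obtain ⟨a, _, s, hs, rfl⟩ := hA hx
  rcases hs.1.lt_or_eq with h | h
  · exact h
  · exfalso
    apply h0
    rw [← h] at hx
    simpa [pt] using hx

lemma lo_pos {A : NC} (hA : (A : Set (ℝ × ℝ)) ⊆ Fan Z) (h0 : (0, 0) ∉ A) : 0 < lo A := by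
  obtain ⟨x, hx, h⟩ := lo_mem A
  exact h ▸ pos2 hA h0 hx

lemma lo_nonneg {A : NC} (hA : (A : Set (ℝ × ℝ)) ⊆ Fan Z) : 0 ≤ lo A := by
  obtain ⟨x, hx, h⟩ := lo_mem A
  exact h ▸ nonneg2 hA hx

lemma hi_le_one {A : NC} (hA : (A : Set (ℝ × ℝ)) ⊆ Fan Z) : hi A ≤ 1 := by
  obtain ⟨x, hx, h⟩ := hi_mem A
  exact h ▸ le_one2 hA hx

lemma lo_zero {A : NC} (hA : (A : Set (ℝ × ℝ)) ⊆ Fan Z) (h0 : (0, 0) ∈ A) : lo A = 0 :=
  le_antisymm (lo_le A h0) (lo_nonneg hA)

/-- slopes -/
lemma sl_facts {A : NC} (hA : (A : Set (ℝ × ℝ)) ⊆ Fan Z) (h0 : (0, 0) ∉ A) :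
    (∀ x ∈ A, x.1 ≤ sl A * x.2) ∧ (∃ x ∈ A, x.1 = sl A * x.2) ∧ sl A ∈ Z := by
  have hc : ContinuousOn (fun x : ℝ × ℝ => x.1 / x.2) (A : Set (ℝ × ℝ)) :=
    continuousOn_fst.div continuousOn_snd fun x hx => (pos2 hA h0 hx).ne'
  have hK := A.isCompact.image_of_continuousOn hc
  obtain ⟨x, hx, h⟩ := hK.sSup_mem (A.nonempty.image _)
  have h' : x.1 / x.2 = sl A := h
  have hx2 := pos2 hA h0 hx
  refine ⟨fun y hy => ?_, ⟨x, hx, ?_⟩, ?_⟩
  · have h1 : y.1 / y.2 ≤ sl A := le_csSup hK.bddAbove ⟨y, hy, rfl⟩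
    have := pos2 hA h0 hy
    rwa [div_le_iff₀ this] at h1
  · rw [← h']
    field_simp
  · rw [← h']
    obtain ⟨a, ha, s, hs, rfl⟩ := hA hx
    have : (pt a s).1 / (pt a s).2 = a := by
      have h2 : s ≠ 0 := hx2.ne'
      simp [pt, h2]
    rw [this]
    exact ha

lemma sl_nonneg (hZ : Good Z) {A : NC} (hA : (A : Set (ℝ × ℝ)) ⊆ Fan Z) (h0 : (0, 0) ∉ A) :
    0 ≤ sl A := (hZ.sub (sl_facts hA h0).2.2).1

lemma sl_le_one (hZ : Good Z) {A : NC} (hA : (A : Set (ℝ × ℝ)) ⊆ Fan Z) (h0 : (0, 0) ∉ A) :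
    sl A ≤ 1 := (hZ.sub (sl_facts hA h0).2.2).2

/-- the slope is positive if the set is not on one leg -/
lemma sl_pos (hZ : Good Z) {A : NC} (hA : (A : Set (ℝ × ℝ)) ⊆ Fan Z) (h0 : (0, 0) ∉ A)
    (hs : ¬ ∀ x ∈ A, x.1 = sl A * x.2) : 0 < sl A := by
  rcases (sl_nonneg hZ hA h0).lt_or_eq with h | h
  · exact h
  · exfalso
    apply hs
    intro x hx
    apply le_antisymm ((sl_facts hA h0).1 x hx)
    obtain ⟨a, ha, s, hs, rfl⟩ := hA hx
    rw [← h, zero_mul]
    exact mul_nonneg (hZ.sub ha).1 hs.1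

/-- nonnegative first coordinates -/
lemma nonneg1 (hZ : Good Z) {A : NC} (hA : (A : Set (ℝ × ℝ)) ⊆ Fan Z) {x : ℝ × ℝ} (hx : x ∈ A) :
    0 ≤ x.1 := by
  obtain ⟨a, ha, s, hs, rfl⟩ := hA hx
  exact mul_nonneg (hZ.sub ha).1 hs.1

/-- distance estimate -/
lemma dist_R (hZ : Good Z) {A : NC} (hA : (A : Set (ℝ × ℝ)) ⊆ Fan Z) :
    dist (R A) (cone 1 A) ≤ Real.sqrt (lo A) := by
  classical
  by_cases h0 : (0, 0) ∈ A
  · rw [R, if_pos h0, dist_self]
    exact Real.sqrt_nonneg _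
  have hlo := lo_pos hA h0
  have hlo1 : lo A ≤ 1 := (lo_le_hi A).trans (hi_le_one hA)
  have hsq : lo A ≤ Real.sqrt (lo A) := by
    rw [Real.le_sqrt' hlo]
    nlinarith
  have hsq2 : Real.sqrt (lo A) * Real.sqrt (lo A) = lo A := Real.mul_self_sqrt hlo.le
  have hsq0 : 0 < Real.sqrt (lo A) := Real.sqrt_pos.2 hlo
  have ha0 := sl_nonneg hZ hA h0
  have ha1 := sl_le_one hZ hA h0
  obtain ⟨hsl, hsl', _⟩ := sl_facts hA h0
  obtain ⟨xM, hxM, hM⟩ := hi_mem A
  have hMpos : 0 < hi A := lt_of_lt_of_le hlo (lo_le_hi A)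
  have hM1 := hi_le_one hA
  -- points of the cone
  have hcone : ∀ s ∈ Icc (0 : ℝ) (hi A), ∃ y ∈ cone 1 A, y.2 = s ∧ 0 ≤ y.1 ∧ y.1 ≤ sl A * s := by
    intro s hs
    refine ⟨(1 * (s / hi A) * xM.1, 1 * (s / hi A) * xM.2), ?_, ?_, ?_, ?_⟩
    · exact mem_cone.2 ⟨s / hi A, ⟨div_nonneg hs.1 hMpos.le, (div_le_one hMpos).2 hs.2⟩, xM, hxM,
        rfl⟩
    · simp only [hM]; field_simp
    · have := nonneg1 hZ hA hxM
      have := div_nonneg hs.1 hMpos.le
      simp only
      positivity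
    · have h1 := hsl xM hxM
      rw [hM] at h1
      have h2 := div_nonneg hs.1 hMpos.le
      have h3 : s / hi A * xM.1 ≤ s / hi A * (sl A * hi A) := mul_le_mul_of_nonneg_left h1 h2
      have h4 : s / hi A * (sl A * hi A) = sl A * s := by field_simp
      simp only [one_mul]
      linarith
  have hcone' : ∀ y ∈ cone 1 A, y.2 ∈ Icc (0 : ℝ) (hi A) ∧ 0 ≤ y.1 ∧ y.1 ≤ sl A * y.2 := by
    intro y hy
    obtain ⟨u, hu, x, hx, rfl⟩ := mem_cone.1 hy
    have h1 := nonneg1 hZ hA hx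
    have h2 := nonneg2 hA hx
    have h3 := le_hi A hx
    have h4 := hsl x hx
    simp only [one_mul]
    refine ⟨⟨mul_nonneg hu.1 h2, ?_⟩, mul_nonneg hu.1 h1, ?_⟩
    · calc u * x.2 ≤ 1 * x.2 := mul_le_mul_of_nonneg_right hu.2 h2
        _ ≤ hi A := by linarith
    · calc u * x.1 ≤ u * (sl A * x.2) := mul_le_mul_of_nonneg_left h4 hu.1
        _ = sl A * (u * x.2) := by ring
  have hd : ∀ (a s t : ℝ) (y : ℝ × ℝ), y.2 = t → |a * s - y.1| ≤ Real.sqrt (lo A) →
      |s - t| ≤ Real.sqrt (lo A) → dist (pt a s) y ≤ Real.sqrt (lo A) := by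
    intro a s t y h1 h2 h3
    rw [Prod.dist_eq, Real.dist_eq, Real.dist_eq, h1]
    exact max_le h2 h3
  rw [NonemptyCompacts.dist_eq]
  unfold R
  rw [if_neg h0]
  by_cases hs : ∀ x ∈ A, x.1 = sl A * x.2
  · rw [if_pos hs]
    apply hausdorffDist_le_of_mem_dist hsq0.le
    · intro x hx
      obtain ⟨s, hs', rfl⟩ := mem_seg.1 hx
      rw [uIcc_of_le (lo_le_hi A)] at hs'
      obtain ⟨y, hy, h1, h2, h3⟩ := hcone s ⟨hlo.le.trans hs'.1, hs'.2⟩
      refine ⟨y, hy, hd _ _ s y h1 ?_ (by simp)⟩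
      obtain ⟨u, hu, z, hz, rfl⟩ := mem_cone.1 hy
      have h4 := hs z hz
      simp only [one_mul] at h1 h2 h3 ⊢
      rw [h4, ← h1]
      have : sl A * (u * z.2) - u * (sl A * z.2) = 0 := by ring
      rw [this, abs_zero]
      exact hsq0.le
    · intro y hy
      obtain ⟨h1, h2, h3⟩ := hcone' y hy
      obtain ⟨u, hu, z, hz, rfl⟩ := mem_cone.1 hy
      have h4 := hs z hz
      simp only [one_mul] at h1 h2 h3 ⊢
      refine ⟨pt (sl A) (max (lo A) (u * z.2)), mem_seg.2 ⟨_, ?_, rfl⟩, ?_⟩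
      · rw [uIcc_of_le (lo_le_hi A)]
        exact ⟨le_max_left _ _, max_le (lo_le_hi A) h1.2⟩
      · rw [dist_comm]
        have h5 : |max (lo A) (u * z.2) - u * z.2| ≤ lo A := by
          rw [abs_le]
          have := le_max_right (lo A) (u * z.2)
          have := h1.1
          refine ⟨by linarith, ?_⟩
          rcases max_choice (lo A) (u * z.2) with h | h <;> rw [h] <;> linarith
        refine hd _ _ _ _ rfl ?_ (h5.trans hsq)
        simp only
        rw [h4, show sl A * max (lo A) (u * z.2) - u * (sl A * z.2)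
          = sl A * (max (lo A) (u * z.2) - u * z.2) by ring, abs_mul, abs_of_nonneg ha0]
        calc sl A * |max (lo A) (u * z.2) - u * z.2| ≤ 1 * |max (lo A) (u * z.2) - u * z.2| :=
            mul_le_mul_of_nonneg_right ha1 (abs_nonneg _)
          _ ≤ Real.sqrt (lo A) := by rw [one_mul]; exact h5.trans hsq
  rw [if_neg hs]
  have hap := sl_pos hZ hA h0 hs
  by_cases h2a : 2 * sl A ≤ lo A
  · rw [if_pos h2a]
    set α := min (lo A / sl A - 2) 1 * lo A with hα
    have hα0 : 0 ≤ α := by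
      apply mul_nonneg (le_min _ zero_le_one) hlo.le
      rw [sub_nonneg, le_div_iff₀ hap]
      exact h2a
    have hα1 : α ≤ lo A := by
      calc α ≤ 1 * lo A := mul_le_mul_of_nonneg_right (min_le_right _ _) hlo.le
        _ = lo A := one_mul _
    have hαM : α ≤ hi A := hα1.trans (lo_le_hi A)
    apply hausdorffDist_le_of_mem_dist hsq0.le
    · intro x hx
      obtain ⟨s, hs', rfl⟩ := mem_seg.1 hx
      rw [uIcc_of_le hαM] at hs'
      have hs0 : 0 ≤ s := hα0.trans hs'.1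
      obtain ⟨y, hy, h1, h2, h3⟩ := hcone s ⟨hs0, hs'.2⟩
      refine ⟨y, hy, hd _ _ s y h1 ?_ (by simp)⟩
      rw [abs_le]
      have h4 : sl A * s ≤ sl A * 1 := mul_le_mul_of_nonneg_left (hs'.2.trans hM1) ha0
      have h5 : 0 ≤ sl A * s := mul_nonneg ha0 hs0
      constructor <;> linarith
    · intro y hy
      obtain ⟨h1, h2, h3⟩ := hcone' y hy
      refine ⟨pt (sl A) (max α y.2), mem_seg.2 ⟨_, ?_, rfl⟩, ?_⟩
      · rw [uIcc_of_le hαM]
        exact ⟨le_max_left _ _, max_le hαM h1.2⟩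
      · rw [dist_comm]
        have h5 : max α y.2 - y.2 ≤ lo A := by
          have := h1.1
          rcases max_choice α y.2 with h | h <;> rw [h] <;> linarith
        have h6 := le_max_right α y.2
        have h8 : max α y.2 ≤ 1 := max_le (hαM.trans hM1) (h1.2.trans hM1)
        have h9 : sl A * max α y.2 ≤ sl A * 1 := mul_le_mul_of_nonneg_left h8 ha0
        have h10 : sl A * y.2 ≤ sl A * 1 := mul_le_mul_of_nonneg_left (h1.2.trans hM1) ha0
        have h11 : 0 ≤ sl A * max α y.2 := mul_nonneg ha0 (h1.1.trans h6)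
        refine hd _ _ _ _ rfl ?_ ?_
        · rw [abs_le]
          constructor <;> linarith
        · rw [abs_le]
          constructor <;> linarith
  · rw [if_neg h2a]
    push Not at h2a
    have hc0 : ((0 : ℝ), (0 : ℝ)) ∈ cone 1 A := mem_cone.2 ⟨0, ⟨le_refl _, zero_le_one⟩, xM, hxM,
      by simp⟩
    have hlam0 : 0 ≤ min (lo A / sl A) 1 := le_min (div_nonneg hlo.le hap.le) zero_le_one
    have hlam1 : min (lo A / sl A) 1 ≤ 1 := min_le_right _ _
    have hthe0 : 0 ≤ min (2 - lo A / sl A) 1 := by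
      refine le_min ?_ zero_le_one
      rw [sub_nonneg, div_le_iff₀ hap]
      exact h2a.le
    have hthe1 : min (2 - lo A / sl A) 1 ≤ 1 := min_le_right _ _
    apply hausdorffDist_le_of_mem_dist hsq0.le
    · intro x hx
      rcases hx with hx | hx
      · obtain ⟨s, hs', rfl⟩ := mem_seg.1 hx
        have hlM0 : 0 ≤ min (lo A / sl A) 1 * hi A := mul_nonneg hlam0 hMpos.le
        rw [uIcc_of_le hlM0] at hs'
        have hsM : s ≤ hi A := by
          calc s ≤ min (lo A / sl A) 1 * hi A := hs'.2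
            _ ≤ 1 * hi A := mul_le_mul_of_nonneg_right hlam1 hMpos.le
            _ = hi A := one_mul _
        by_cases hsm : sl A ≤ Real.sqrt (lo A)
        · obtain ⟨y, hy, h1, h2, h3⟩ := hcone s ⟨hs'.1, hsM⟩
          refine ⟨y, hy, hd _ _ s y h1 ?_ (by simp)⟩
          rw [abs_le]
          have h4 : sl A * s ≤ sl A * 1 := mul_le_mul_of_nonneg_left (hsM.trans hM1) ha0
          have h5 : 0 ≤ sl A * s := mul_nonneg ha0 hs'.1
          constructor <;> linarith
        · push Not at hsm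
          refine ⟨(0, 0), hc0, hd _ _ 0 _ rfl ?_ ?_⟩
          · simp only [sub_zero]
            rw [abs_of_nonneg (mul_nonneg ha0 hs'.1)]
            have h1 : s ≤ Real.sqrt (lo A) := by
              have h2 : lo A / sl A ≤ Real.sqrt (lo A) := by
                rw [div_le_iff₀ hap]
                nlinarith
              calc s ≤ min (lo A / sl A) 1 * hi A := hs'.2
                _ ≤ min (lo A / sl A) 1 * 1 := mul_le_mul_of_nonneg_left hM1 hlam0
                _ ≤ lo A / sl A := by rw [mul_one]; exact min_le_left _ _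
                _ ≤ _ := h2
            calc sl A * s ≤ 1 * s := mul_le_mul_of_nonneg_right ha1 hs'.1
              _ ≤ _ := by rw [one_mul]; exact h1
          · rw [sub_zero, abs_of_nonneg hs'.1]
            have h2 : lo A / sl A ≤ Real.sqrt (lo A) := by
              rw [div_le_iff₀ hap]
              nlinarith
            calc s ≤ min (lo A / sl A) 1 * hi A := hs'.2
              _ ≤ min (lo A / sl A) 1 * 1 := mul_le_mul_of_nonneg_left hM1 hlam0
              _ ≤ lo A / sl A := by rw [mul_one]; exact min_le_left _ _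
              _ ≤ _ := h2
      · obtain ⟨u, hu, z, hz, rfl⟩ := mem_cone.1 hx
        refine ⟨_, mem_cone.2 ⟨min (2 - lo A / sl A) 1 * u, ⟨mul_nonneg hthe0 hu.1,
          mul_le_one₀ hthe1 hu.1 hu.2⟩, z, hz, rfl⟩, ?_⟩
        simp only [one_mul]
        rw [dist_self]
        exact hsq0.le
    · intro y hy
      by_cases hθ : lo A / sl A ≤ 1
      · refine ⟨y, Or.inr ?_, by rw [dist_self]; exact hsq0.le⟩
        have : min (2 - lo A / sl A) 1 = 1 := min_eq_right (by linarith)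
        rw [this]
        exact hy
      · push Not at hθ
        have hal : sl A < lo A := by
          rwa [lt_div_iff₀ hap, one_mul] at hθ
        obtain ⟨h1, h2, h3⟩ := hcone' y hy
        refine ⟨pt (sl A) y.2, Or.inl (mem_seg.2 ⟨_, ?_, rfl⟩), ?_⟩
        · have : min (lo A / sl A) 1 = 1 := min_eq_right hθ.le
          rw [this, one_mul, uIcc_of_le hMpos.le]
          exact h1
        · rw [dist_comm]
          refine hd _ _ _ _ rfl ?_ (by simp)
          have h4 : sl A * y.2 ≤ sl A * 1 := mul_le_mul_of_nonneg_left (h1.2.trans hM1) ha0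
          have h5 : 0 ≤ sl A * y.2 := mul_nonneg ha0 h1.1
          rw [abs_le]
          constructor <;> linarith

/-- the maximal slope is locally constant where it is positive -/
lemma near_slope (hZ : Good Z) {A : NC} (hA : (A : Set (ℝ × ℝ)) ⊆ Fan Z) (h0 : (0, 0) ∉ A)
    (ha : sl A ≠ 0) : ∀ᶠ B : NC in 𝓝 A, (B : Set (ℝ × ℝ)) ⊆ Fan Z → (0, 0) ∉ B ∧ sl B = sl A := by
  obtain ⟨hsl, ⟨x, hx, hxe⟩, haZ⟩ := sl_facts hA h0
  obtain ⟨δ, hδ, hiso⟩ := hZ.iso _ haZ ha
  have hx2 := pos2 hA h0 hx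
  have hU : IsOpen {x : ℝ × ℝ | x.1 < (sl A + δ) * x.2} :=
    isOpen_lt continuous_fst (continuous_const.mul continuous_snd)
  have hV : IsOpen {x : ℝ × ℝ | (sl A - δ) * x.2 < x.1} :=
    isOpen_lt (continuous_const.mul continuous_snd) continuous_fst
  have h1 := (NonemptyCompacts.isOpen_subsets_of_isOpen hU).mem_nhds (show A ∈ {L : NC |
    (L : Set (ℝ × ℝ)) ⊆ {x : ℝ × ℝ | x.1 < (sl A + δ) * x.2}} from fun y hy => by
      have h2 := hsl y hy
      have h3 := pos2 hA h0 hy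
      show y.1 < (sl A + δ) * y.2
      nlinarith)
  have h2 := (NonemptyCompacts.isOpen_inter_nonempty_of_isOpen hV).mem_nhds (show A ∈ {L : NC |
    ((L : Set (ℝ × ℝ)) ∩ {x : ℝ × ℝ | (sl A - δ) * x.2 < x.1}).Nonempty} from ⟨x, hx, by
      show (sl A - δ) * x.2 < x.1
      rw [hxe]
      nlinarith⟩)
  filter_upwards [h1, h2] with B hB1 hB2 hB
  have hB0 : (0, 0) ∉ B := fun h => by
    have : (0 : ℝ) < (sl A + δ) * 0 := hB1 h
    simp at this
  refine ⟨hB0, ?_⟩
  obtain ⟨gsl, ⟨y, hy, hye⟩, gZ⟩ := sl_facts hB hB0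
  apply hiso _ gZ
  rw [abs_lt]
  constructor
  · obtain ⟨z, hz, hze⟩ := hB2
    have h3 := gsl z hz
    have h4 := pos2 hB hB0 hz
    have h5 : (sl A - δ) * z.2 < sl B * z.2 := lt_of_lt_of_le hze h3
    have := lt_of_mul_lt_mul_right h5 h4.le
    linarith
  · have h4 := pos2 hB hB0 hy
    have h3 : y.1 < (sl A + δ) * y.2 := hB1 hy
    rw [hye] at h3
    have := lt_of_mul_lt_mul_right h3 h4.le
    linarith

lemma near_single (hZ : Good Z) {A : NC} (hA : (A : Set (ℝ × ℝ)) ⊆ Fan Z) (h0 : (0, 0) ∉ A)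
    (ha : sl A ≠ 0) (hs : ∀ x ∈ A, x.1 = sl A * x.2) :
    ∀ᶠ B : NC in 𝓝 A, (B : Set (ℝ × ℝ)) ⊆ Fan Z → ∀ x ∈ B, x.1 = sl A * x.2 := by
  obtain ⟨hsl, _, haZ⟩ := sl_facts hA h0
  obtain ⟨δ, hδ, hiso⟩ := hZ.iso _ haZ ha
  have hU : IsOpen {x : ℝ × ℝ | x.1 < (sl A + δ) * x.2} :=
    isOpen_lt continuous_fst (continuous_const.mul continuous_snd)
  have hV : IsOpen {x : ℝ × ℝ | (sl A - δ) * x.2 < x.1} :=
    isOpen_lt (continuous_const.mul continuous_snd) continuous_fst
  have h1 := (NonemptyCompacts.isOpen_subsets_of_isOpen (hU.inter hV)).mem_nhds (show A ∈ {L : NC |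
    (L : Set (ℝ × ℝ)) ⊆ {x : ℝ × ℝ | x.1 < (sl A + δ) * x.2} ∩
      {x : ℝ × ℝ | (sl A - δ) * x.2 < x.1}} from fun y hy => by
      have h2 := hs y hy
      have h3 := pos2 hA h0 hy
      constructor
      · show y.1 < (sl A + δ) * y.2
        nlinarith
      · show (sl A - δ) * y.2 < y.1
        nlinarith)
  filter_upwards [h1] with B hB1 hB x hx
  obtain ⟨g1, g2⟩ := hB1 hx
  obtain ⟨b, hb, s, hs', rfl⟩ := hB hx
  have g1' : b * s < (sl A + δ) * s := g1
  have g2' : (sl A - δ) * s < b * s := g2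
  have h3 := lt_of_mul_lt_mul_right g1' hs'.1
  have h4 := lt_of_mul_lt_mul_right g2' hs'.1
  have : b = sl A := hiso b hb (by rw [abs_lt]; constructor <;> linarith)
  rw [this]
  rfl

lemma near_multi {A : NC} (hA : (A : Set (ℝ × ℝ)) ⊆ Fan Z) (h0 : (0, 0) ∉ A)
    (hs : ¬ ∀ x ∈ A, x.1 = sl A * x.2) :
    ∀ᶠ B : NC in 𝓝 A, ¬ ∀ x ∈ B, x.1 = sl A * x.2 := by
  push Not at hs
  obtain ⟨x, hx, hne⟩ := hs
  have hlt : x.1 < sl A * x.2 := lt_of_le_of_ne ((sl_facts hA h0).1 x hx) hne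
  have hV : IsOpen {x : ℝ × ℝ | x.1 < sl A * x.2} :=
    isOpen_lt continuous_fst (continuous_const.mul continuous_snd)
  have h2 := (NonemptyCompacts.isOpen_inter_nonempty_of_isOpen hV).mem_nhds (show A ∈ {L : NC |
    ((L : Set (ℝ × ℝ)) ∩ {x : ℝ × ℝ | x.1 < sl A * x.2}).Nonempty} from ⟨x, hx, hlt⟩)
  filter_upwards [h2] with B hB h
  obtain ⟨y, hy, hye⟩ := hB
  exact absurd (h y hy) (ne_of_lt hye)

/-- The retraction is continuous on the hyperspace of the fan. -/
theorem R_cont (hZ : Good Z) : ContinuousOn R {A : NC | (A : Set (ℝ × ℝ)) ⊆ Fan Z} := by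
  classical
  intro A hA
  by_cases h0 : (0, 0) ∈ A
  · -- sets containing the vertex
    have hRA : R A = cone 1 A := by rw [R, if_pos h0]
    have hlo0 : lo A = 0 := lo_zero hA h0
    rw [ContinuousWithinAt, hRA, tendsto_iff_dist_tendsto_zero]
    have h1 : Tendsto (fun B : NC => Real.sqrt (lo B) + dist (cone 1 B) (cone 1 A))
        (𝓝[{A : NC | (A : Set (ℝ × ℝ)) ⊆ Fan Z}] A) (𝓝 0) := by
      have hc : Continuous fun B : NC => Real.sqrt (lo B) + dist (cone 1 B) (cone 1 A) := by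
        have h2 : Continuous fun B : NC => cone 1 B :=
          cone_cont.comp (continuous_const.prodMk continuous_id)
        exact (Real.continuous_sqrt.comp lo_cont).add (h2.dist continuous_const)
      have h3 := hc.tendsto A
      rw [hlo0, Real.sqrt_zero, dist_self, add_zero] at h3
      exact h3.mono_left nhdsWithin_le_nhds
    refine squeeze_zero' (Eventually.of_forall fun _ => dist_nonneg) ?_ h1
    filter_upwards [self_mem_nhdsWithin] with B hB
    calc dist (R B) (cone 1 A) ≤ dist (R B) (cone 1 B) + dist (cone 1 B) (cone 1 A) :=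
          dist_triangle _ _ _
      _ ≤ _ := by linarith [dist_R hZ hB]
  have hlo := lo_pos hA h0
  by_cases ha : sl A = 0
  · -- sets on the limit leg
    have hRA : R A = seg 0 (lo A) (hi A) := by
      rw [R, if_neg h0, if_pos, ha]
      intro x hx
      by_contra hne
      exact absurd ha (sl_pos hZ hA h0 (fun h => hne (h x hx))).ne'
    have hsmall : ∀ ε > 0, ∀ᶠ B in 𝓝[{A : NC | (A : Set (ℝ × ℝ)) ⊆ Fan Z}] A,
        (0, 0) ∉ B ∧ 0 ≤ sl B ∧ sl B < ε := by
      intro ε hε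
      have hU : IsOpen {x : ℝ × ℝ | x.1 < ε * x.2} :=
        isOpen_lt continuous_fst (continuous_const.mul continuous_snd)
      have h1 := (NonemptyCompacts.isOpen_subsets_of_isOpen hU).mem_nhds (show A ∈ {L : NC |
        (L : Set (ℝ × ℝ)) ⊆ {x : ℝ × ℝ | x.1 < ε * x.2}} from fun y hy => by
          have h2 := (sl_facts hA h0).1 y hy
          have h3 := pos2 hA h0 hy
          rw [ha] at h2
          show y.1 < ε * y.2
          have := mul_pos hε h3
          linarith)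
      filter_upwards [self_mem_nhdsWithin, nhdsWithin_le_nhds h1] with B hB hB1
      have hB0 : (0, 0) ∉ B := fun h => by
        have : (0 : ℝ) < ε * 0 := hB1 h
        simp at this
      refine ⟨hB0, sl_nonneg hZ hB hB0, ?_⟩
      obtain ⟨_, ⟨y, hy, hye⟩, _⟩ := sl_facts hB hB0
      have h4 := pos2 hB hB0 hy
      have h3 : y.1 < ε * y.2 := hB1 hy
      rw [hye] at h3
      exact lt_of_mul_lt_mul_right h3 h4.le
    have hsl : Tendsto sl (𝓝[{A : NC | (A : Set (ℝ × ℝ)) ⊆ Fan Z}] A) (𝓝 0) := by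
      rw [Metric.tendsto_nhds]
      intro ε hε
      filter_upwards [hsmall ε hε] with B hB
      rw [Real.dist_eq, sub_zero, abs_of_nonneg hB.2.1]
      exact hB.2.2
    have hseg : Tendsto (fun B : NC => seg (sl B) (lo B) (hi B))
        (𝓝[{A : NC | (A : Set (ℝ × ℝ)) ⊆ Fan Z}] A) (𝓝 (seg 0 (lo A) (hi A))) := by
      have h1 : Tendsto (fun B : NC => (sl B, lo B, hi B))
          (𝓝[{A : NC | (A : Set (ℝ × ℝ)) ⊆ Fan Z}] A) (𝓝 (0, lo A, hi A)) :=
        hsl.prodMk_nhds (((lo_cont.tendsto A).mono_left nhdsWithin_le_nhds).prodMk_nhds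
          ((hi_cont.tendsto A).mono_left nhdsWithin_le_nhds))
      exact (seg_cont.tendsto (0, lo A, hi A)).comp h1
    rw [ContinuousWithinAt, hRA]
    refine hseg.congr' ?_
    have hlo2 : ∀ᶠ B in 𝓝[{A : NC | (A : Set (ℝ × ℝ)) ⊆ Fan Z}] A, lo A / 2 < lo B :=
      nhdsWithin_le_nhds ((lo_cont.tendsto A).eventually (lt_mem_nhds (by linarith)))
    filter_upwards [self_mem_nhdsWithin, hsmall (lo A / 6) (by linarith), hlo2] with B hB hB1 hB2
    rw [R, if_neg hB1.1]
    by_cases hs : ∀ x ∈ B, x.1 = sl B * x.2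
    · rw [if_pos hs]
    · have hp := sl_pos hZ hB hB1.1 hs
      rw [if_neg hs, if_pos (by linarith)]
      have : min (lo B / sl B - 2) 1 = 1 := by
        apply min_eq_right
        have : 3 ≤ lo B / sl B := by
          rw [le_div_iff₀ hp]
          linarith
        linarith
      rw [this, one_mul]
  -- positive slope
  have hap : 0 < sl A := lt_of_le_of_ne (sl_nonneg hZ hA h0) (Ne.symm ha)
  by_cases hs : ∀ x ∈ A, x.1 = sl A * x.2
  · have hF : Continuous fun B : NC => seg (sl A) (lo B) (hi B) :=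
      seg_cont.comp (continuous_const.prodMk (lo_cont.prodMk hi_cont))
    have hRA : R A = seg (sl A) (lo A) (hi A) := by rw [R, if_neg h0, if_pos hs]
    rw [ContinuousWithinAt, hRA]
    refine ((hF.tendsto A).mono_left nhdsWithin_le_nhds).congr' ?_
    filter_upwards [self_mem_nhdsWithin, nhdsWithin_le_nhds (near_slope hZ hA h0 ha),
      nhdsWithin_le_nhds (near_single hZ hA h0 ha hs)] with B hB h1 h2
    obtain ⟨hB0, hB1⟩ := h1 hB
    have h3 := h2 hB
    rw [← hB1] at h3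
    rw [R, if_neg hB0, if_pos h3, hB1]
  · set a := sl A with hadef
    let f : NC → NC := fun B => seg a (min (lo B / a - 2) 1 * lo B) (hi B)
    let g : NC → NC := fun B => seg a 0 (min (lo B / a) 1 * hi B) ⊔ cone (min (2 - lo B / a) 1) B
    have hf : Continuous f := by
      refine seg_cont.comp (continuous_const.prodMk (Continuous.prodMk ?_ hi_cont))
      exact (((lo_cont.div_const a).sub continuous_const).min continuous_const).mul lo_cont
    have hg : Continuous g := by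
      refine Continuous.sup ?_ ?_
      · refine seg_cont.comp (continuous_const.prodMk (continuous_const.prodMk ?_))
        exact ((lo_cont.div_const a).min continuous_const).mul hi_cont
      · refine cone_cont.comp (Continuous.prodMk ?_ continuous_id)
        exact (continuous_const.sub (lo_cont.div_const a)).min continuous_const
    have hev : ∀ᶠ B in 𝓝[{A : NC | (A : Set (ℝ × ℝ)) ⊆ Fan Z}] A,
        (if 2 * a ≤ lo B then f B else g B) = R B := by
      filter_upwards [self_mem_nhdsWithin, nhdsWithin_le_nhds (near_slope hZ hA h0 ha),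
        nhdsWithin_le_nhds (near_multi hA h0 hs)] with B hB h1 h2
      obtain ⟨hB0, hB1⟩ := h1 hB
      rw [← hB1] at h2
      rw [R, if_neg hB0, if_neg h2, hB1]
    have hRA : R A = if 2 * a ≤ lo A then f A else g A := by
      rw [R, if_neg h0, if_neg hs]
    rw [ContinuousWithinAt]
    refine Tendsto.congr' hev ?_
    rw [hRA]
    refine Tendsto.mono_left ?_ nhdsWithin_le_nhds
    rcases lt_trichotomy (2 * a) (lo A) with h | h | h
    · rw [if_pos h.le]
      refine (hf.tendsto A).congr' ?_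
      filter_upwards [(lo_cont.tendsto A).eventually (lt_mem_nhds h)] with B hB
      rw [if_pos hB.le]
    · rw [if_pos h.le]
      have hfg : g A = f A := by
        have h1 : lo A / a = 2 := by rw [← h]; field_simp
        have h2 : min (lo A / a - 2) 1 * lo A = 0 := by rw [h1]; norm_num
        have h3 : min (lo A / a) 1 * hi A = hi A := by
          rw [h1, min_eq_right (by norm_num), one_mul]
        have h4 : min (2 - lo A / a) 1 = 0 := by rw [h1]; norm_num
        show seg a 0 (min (lo A / a) 1 * hi A) ⊔ cone (min (2 - lo A / a) 1) A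
          = seg a (min (lo A / a - 2) 1 * lo A) (hi A)
        rw [h2, h3, h4]
        refine sup_eq_left.2 ?_
        intro x hx
        obtain ⟨u, hu, y, hy, rfl⟩ := mem_cone.1 hx
        refine mem_seg.2 ⟨0, left_mem_uIcc, ?_⟩
        simp [pt]
      have hg' : Tendsto g (𝓝 A) (𝓝 (f A)) := hfg ▸ hg.tendsto A
      exact (hf.tendsto A).if' hg'
    · rw [if_neg (not_le.2 h)]
      refine (hg.tendsto A).congr' ?_
      filter_upwards [(lo_cont.tendsto A).eventually (gt_mem_nhds h)] with B hB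
      rw [if_neg (not_le.2 hB)]

end Q172.Fan
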