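import Mathlib

/-! Fans in the plane with vertex at the origin and the retraction of the hyperspace of nonempty
compact subsets onto the hyperspace of subcontinua. -/

set_option autoImplicit false

open Set Topology TopologicalSpace Filter Metric

namespace Q172.Fan

/-- the point of height `s` on the leg of slope `a` -/
def pt (a s : ℝ) : ℝ × ℝ := (a * s, s)

/-- the fan with legs of slopes in `Z` -/
def Fan (Z : Set ℝ) : Set (ℝ × ℝ) := {x | ∃ a ∈ Z, ∃ s ∈ Icc (0 : ℝ) 1, x = pt a s}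

/-- sets of slopes with the only limit point `0` -/
structure Good (Z : Set ℝ) : Prop where
  zero : (0 : ℝ) ∈ Z
  sub : Z ⊆ Icc 0 1
  count : Z.Countable
  iso : ∀ a ∈ Z, a ≠ 0 → ∃ δ > 0, ∀ b ∈ Z, |b - a| < δ → b = a
  lim : ∀ ε > 0, ∃ a ∈ Z, 0 < a ∧ a < ε

/-- the hyperspace of the plane -/
abbrev NC := NonemptyCompacts (ℝ × ℝ)

/-- the smallest height -/
noncomputable def lo (A : NC) : ℝ := sInf (Prod.snd '' (A : Set (ℝ × ℝ)))

/-- the largest height -/
noncomputable def hi (A : NC) : ℝ := sSup (Prod.snd '' (A : Set (ℝ × ℝ)))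

/-- the largest slope -/
noncomputable def sl (A : NC) : ℝ := sSup ((fun x : ℝ × ℝ => x.1 / x.2) '' (A : Set (ℝ × ℝ)))

lemma sSup_cont : Continuous fun K : NonemptyCompacts ℝ => sSup (K : Set ℝ) := by
  rw [continuous_iff_continuousAt]
  intro K
  have hb : ∀ K : NonemptyCompacts ℝ, sSup (K : Set ℝ) ∈ (K : Set ℝ) := fun K =>
    K.isCompact.sSup_mem K.nonempty
  have hle : ∀ (K : NonemptyCompacts ℝ), ∀ x ∈ K, x ≤ sSup (K : Set ℝ) := fun K x hx =>
    le_csSup K.isCompact.bddAbove hx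
  refine (tendsto_order.2 ⟨fun a ha => ?_, fun a ha => ?_⟩)
  · have := (NonemptyCompacts.isOpen_inter_nonempty_of_isOpen (isOpen_Ioi (a := a))).mem_nhds
      (show K ∈ {L : NonemptyCompacts ℝ | ((L : Set ℝ) ∩ Ioi a).Nonempty} from ⟨_, hb K, ha⟩)
    filter_upwards [this] with L hL
    obtain ⟨x, hx, hxa⟩ := hL
    exact lt_of_lt_of_le hxa (hle L x hx)
  · have := (NonemptyCompacts.isOpen_subsets_of_isOpen (isOpen_Iio (a := a))).mem_nhds
      (show K ∈ {L : NonemptyCompacts ℝ | (L : Set ℝ) ⊆ Iio a} from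
        fun x hx => lt_of_le_of_lt (hle K x hx) ha)
    filter_upwards [this] with L hL
    exact hL (hb L)

lemma sInf_cont : Continuous fun K : NonemptyCompacts ℝ => sInf (K : Set ℝ) := by
  rw [continuous_iff_continuousAt]
  intro K
  have hb : ∀ K : NonemptyCompacts ℝ, sInf (K : Set ℝ) ∈ (K : Set ℝ) := fun K =>
    K.isCompact.sInf_mem K.nonempty
  have hle : ∀ (K : NonemptyCompacts ℝ), ∀ x ∈ K, sInf (K : Set ℝ) ≤ x := fun K x hx =>
    csInf_le K.isCompact.bddBelow hx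
  refine (tendsto_order.2 ⟨fun a ha => ?_, fun a ha => ?_⟩)
  · have := (NonemptyCompacts.isOpen_subsets_of_isOpen (isOpen_Ioi (a := a))).mem_nhds
      (show K ∈ {L : NonemptyCompacts ℝ | (L : Set ℝ) ⊆ Ioi a} from
        fun x hx => lt_of_lt_of_le ha (hle K x hx))
    filter_upwards [this] with L hL
    exact hL (hb L)
  · have := (NonemptyCompacts.isOpen_inter_nonempty_of_isOpen (isOpen_Iio (a := a))).mem_nhds
      (show K ∈ {L : NonemptyCompacts ℝ | ((L : Set ℝ) ∩ Iio a).Nonempty} from ⟨_, hb K, ha⟩)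
    filter_upwards [this] with L hL
    obtain ⟨x, hx, hxa⟩ := hL
    exact lt_of_le_of_lt (hle L x hx) hxa

lemma lo_cont : Continuous lo :=
  sInf_cont.comp (continuous_snd.nonemptyCompacts_map)

lemma hi_cont : Continuous hi :=
  sSup_cont.comp (continuous_snd.nonemptyCompacts_map)

/-- the part of the leg of slope `a` between the heights `α` and `β` -/
noncomputable def seg (a α β : ℝ) : NC :=
  (⊤ : NonemptyCompacts unitInterval).map
    (fun u : unitInterval => pt a ((1 - (u : ℝ)) * α + u * β)) (by unfold pt; fun_prop)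

lemma seg_cont : Continuous fun p : ℝ × ℝ × ℝ => seg p.1 p.2.1 p.2.2 := by
  refine Continuous.nonemptyCompacts_map' (f := fun _ : ℝ × ℝ × ℝ => ⊤)
    (g := fun (p : ℝ × ℝ × ℝ) (u : unitInterval) =>
      pt p.1 ((1 - (u : ℝ)) * p.2.1 + u * p.2.2)) continuous_const ?_
  simp only [Function.uncurry_def, pt]
  fun_prop

/-- the union of the segments from the origin to the points of `A`, scaled by `θ` -/
noncomputable def cone (θ : ℝ) (A : NC) : NC :=
  ((⊤ : NonemptyCompacts unitInterval) ×ˢ A).map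
    (fun p : unitInterval × (ℝ × ℝ) => (θ * p.1 * p.2.1, θ * p.1 * p.2.2)) (by fun_prop)

lemma cone_cont : Continuous fun p : ℝ × NC => cone p.1 p.2 := by
  refine Continuous.nonemptyCompacts_map'
    (f := fun p : ℝ × NC => (⊤ : NonemptyCompacts unitInterval) ×ˢ p.2)
    (g := fun (p : ℝ × NC) (q : unitInterval × (ℝ × ℝ)) =>
      (p.1 * q.1 * q.2.1, p.1 * q.1 * q.2.2)) (by fun_prop) ?_
  simp only [Function.uncurry_def]
  fun_prop

lemma mem_seg {a α β : ℝ} {x : ℝ × ℝ} :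
    x ∈ seg a α β ↔ ∃ s ∈ uIcc α β, x = pt a s := by
  have h : x ∈ seg a α β ↔ x ∈ (fun u : unitInterval => pt a ((1 - (u : ℝ)) * α + u * β)) ''
    ((⊤ : NonemptyCompacts unitInterval) : Set unitInterval) := Iff.rfl
  rw [h]
  constructor
  · rintro ⟨u, -, rfl⟩
    refine ⟨_, ?_, rfl⟩
    rw [← segment_eq_uIcc]
    exact ⟨1 - u, u, by linarith [u.2.2], u.2.1, by ring, by simp⟩
  · rintro ⟨s, hs, rfl⟩
    rw [← segment_eq_uIcc] at hs
    obtain ⟨p, q, hp, hq, hpq, rfl⟩ := hs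
    refine ⟨⟨q, hq, by linarith⟩, by simp, ?_⟩
    simp only [smul_eq_mul]
    rw [show (1 : ℝ) - q = p by linarith]

lemma mem_cone {θ : ℝ} {A : NC} {x : ℝ × ℝ} :
    x ∈ cone θ A ↔ ∃ u ∈ Icc (0 : ℝ) 1, ∃ y ∈ A, x = (θ * u * y.1, θ * u * y.2) := by
  have h : x ∈ cone θ A ↔ x ∈ (fun p : unitInterval × (ℝ × ℝ) =>
    ((θ * p.1 * p.2.1, θ * p.1 * p.2.2) : ℝ × ℝ)) ''
    ((((⊤ : NonemptyCompacts unitInterval) ×ˢ A : NonemptyCompacts _)) : Set _) := Iff.rfl
  rw [h]
  constructor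
  · rintro ⟨⟨u, y⟩, hy, rfl⟩
    exact ⟨u, u.2, y, by simpa using hy, rfl⟩
  · rintro ⟨u, hu, y, hy, rfl⟩
    exact ⟨(⟨u, hu⟩, y), by simpa using hy, rfl⟩

open Classical in
/-- the retraction -/
noncomputable def R (A : NC) : NC :=
  if (0, 0) ∈ A then cone 1 A
  else if ∀ x ∈ A, x.1 = sl A * x.2 then seg (sl A) (lo A) (hi A)
  else if 2 * sl A ≤ lo A then seg (sl A) (min (lo A / sl A - 2) 1 * lo A) (hi A)
  else seg (sl A) 0 (min (lo A / sl A) 1 * hi A) ⊔ cone (min (2 - lo A / sl A) 1) A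

end Q172.Fan
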