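import Pool.Agent.Q172.Fan.Cont

/-! The retraction has connected values and fixes the subcontinua. -/

set_option autoImplicit false

open Set Topology TopologicalSpace Filter Metric

namespace Q172.Fan

variable {Z : Set ℝ}

lemma seg_sub {a α β : ℝ} (ha : a ∈ Z) (hα : α ∈ Icc (0 : ℝ) 1) (hβ : β ∈ Icc (0 : ℝ) 1) :
    (seg a α β : Set (ℝ × ℝ)) ⊆ Fan Z := by
  intro x hx
  obtain ⟨s, hs, rfl⟩ := mem_seg.1 hx
  exact ⟨a, ha, s, uIcc_subset_Icc hα hβ hs, rfl⟩

lemma cone_sub {θ : ℝ} (hθ : θ ∈ Icc (0 : ℝ) 1) {A : NC} (hA : (A : Set (ℝ × ℝ)) ⊆ Fan Z) :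
    (cone θ A : Set (ℝ × ℝ)) ⊆ Fan Z := by
  intro x hx
  obtain ⟨u, hu, y, hy, rfl⟩ := mem_cone.1 hx
  obtain ⟨a, ha, s, hs, rfl⟩ := hA hy
  refine ⟨a, ha, θ * u * s, ⟨?_, ?_⟩, ?_⟩
  · exact mul_nonneg (mul_nonneg hθ.1 hu.1) hs.1
  · exact mul_le_one₀ (mul_le_one₀ hθ.2 hu.1 hu.2) hs.1 hs.2
  · simp only [pt]
    ext <;> simp only
    ring

lemma R_sub (hZ : Good Z) {A : NC} (hA : (A : Set (ℝ × ℝ)) ⊆ Fan Z) :
    (R A : Set (ℝ × ℝ)) ⊆ Fan Z := by
  classical
  unfold R
  by_cases h0 : (0, 0) ∈ A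
  · rw [if_pos h0]
    exact cone_sub ⟨zero_le_one, le_refl _⟩ hA
  rw [if_neg h0]
  have haZ := (sl_facts hA h0).2.2
  have hlo := lo_pos hA h0
  have hhi := hi_le_one hA
  have hlh := lo_le_hi A
  have hlo1 : lo A ∈ Icc (0 : ℝ) 1 := ⟨hlo.le, hlh.trans hhi⟩
  have hhi1 : hi A ∈ Icc (0 : ℝ) 1 := ⟨hlo.le.trans hlh, hhi⟩
  by_cases hs : ∀ x ∈ A, x.1 = sl A * x.2
  · rw [if_pos hs]
    exact seg_sub haZ hlo1 hhi1
  rw [if_neg hs]
  have hap := sl_pos hZ hA h0 hs
  by_cases h2 : 2 * sl A ≤ lo A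
  · rw [if_pos h2]
    refine seg_sub haZ ⟨mul_nonneg (le_min ?_ zero_le_one) hlo.le,
      mul_le_one₀ (min_le_right _ _) hlo.le hlo1.2⟩ hhi1
    rw [sub_nonneg, le_div_iff₀ hap]
    exact h2
  · rw [if_neg h2]
    push Not at h2
    have h3 : 0 ≤ min (lo A / sl A) 1 := le_min (div_nonneg hlo.le hap.le) zero_le_one
    have h4 : 0 ≤ min (2 - lo A / sl A) 1 := by
      refine le_min ?_ zero_le_one
      rw [sub_nonneg, div_le_iff₀ hap]
      exact h2.le
    rintro x (hx | hx)
    · exact seg_sub haZ ⟨le_refl _, zero_le_one⟩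
        ⟨mul_nonneg h3 hhi1.1, mul_le_one₀ (min_le_right _ _) hhi1.1 hhi1.2⟩ hx
    · exact cone_sub ⟨h4, min_le_right _ _⟩ hA hx

lemma seg_conn (a α β : ℝ) : IsConnected (seg a α β : Set (ℝ × ℝ)) := by
  have h : (seg a α β : Set (ℝ × ℝ)) = pt a '' uIcc α β := by
    ext x
    rw [SetLike.mem_coe, mem_seg]
    constructor
    · rintro ⟨s, hs, rfl⟩
      exact ⟨s, hs, rfl⟩
    · rintro ⟨s, hs, rfl⟩
      exact ⟨s, hs, rfl⟩
  rw [h]
  refine IsConnected.image ⟨nonempty_uIcc, isPreconnected_uIcc⟩ _ ?_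
  unfold pt
  fun_prop

lemma zero_mem_cone (θ : ℝ) (A : NC) : ((0 : ℝ), (0 : ℝ)) ∈ cone θ A := by
  obtain ⟨x, hx⟩ := A.nonempty
  exact mem_cone.2 ⟨0, ⟨le_refl _, zero_le_one⟩, x, hx, by simp⟩

lemma cone_conn (θ : ℝ) (A : NC) : IsConnected (cone θ A : Set (ℝ × ℝ)) := by
  have h : (cone θ A : Set (ℝ × ℝ)) = ⋃ y : A, (fun u : ℝ => (θ * u * y.1.1, θ * u * y.1.2)) ''
      Icc (0 : ℝ) 1 := by
    ext x
    rw [SetLike.mem_coe, mem_cone, Set.mem_iUnion]
    constructor
    · rintro ⟨u, hu, y, hy, rfl⟩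
      exact ⟨⟨y, hy⟩, u, hu, rfl⟩
    · rintro ⟨y, u, hu, rfl⟩
      exact ⟨u, hu, y.1, y.2, rfl⟩
  refine ⟨(cone θ A).nonempty, ?_⟩
  rw [h]
  refine isPreconnected_iUnion ⟨(0, 0), Set.mem_iInter.2 fun y => ⟨0, ⟨le_refl _, zero_le_one⟩,
    by simp⟩⟩ ?_
  intro y
  refine isPreconnected_Icc.image _ ?_
  fun_prop

lemma zero_mem_seg (a β : ℝ) : ((0 : ℝ), (0 : ℝ)) ∈ seg a 0 β :=
  mem_seg.2 ⟨0, left_mem_uIcc, by simp [pt]⟩

/-- The values of the retraction are connected. -/
theorem R_conn (A : NC) : IsConnected (R A : Set (ℝ × ℝ)) := by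
  classical
  unfold R
  split_ifs with h0 h1 h2
  · exact cone_conn _ _
  · exact seg_conn _ _ _
  · exact seg_conn _ _ _
  · exact IsConnected.union ⟨(0, 0), zero_mem_seg _ _, zero_mem_cone _ _⟩ (seg_conn _ _ _)
      (cone_conn _ _)

/-- a real number outside the set of slopes in a given interval -/
lemma exists_gap (hZ : Good Z) {p q : ℝ} (h : p < q) : ∃ c, p < c ∧ c < q ∧ c ∉ Z := by
  by_contra hcon
  push Not at hcon
  have h1 : Ioo p q ⊆ Z := fun c hc => hcon c hc.1 hc.2
  exact (Cardinal.Real.Ioo_countable_iff.1 (hZ.count.mono h1)).not_gt h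

/-- a connected set which misses the vertex is on one leg -/
lemma conn_single (hZ : Good Z) {A : Set (ℝ × ℝ)} (hA : A ⊆ Fan Z) (hc : IsPreconnected A)
    (h0 : (0, 0) ∉ A) {a s b t : ℝ} (hx : pt a s ∈ A) (hy : pt b t ∈ A) (hs : 0 < s) (ht : 0 < t) :
    ¬ a < b := by
  intro hab
  obtain ⟨d, h1, h2, hd⟩ := exists_gap hZ hab
  have hU : IsOpen {x : ℝ × ℝ | x.1 < d * x.2} :=
    isOpen_lt continuous_fst (continuous_const.mul continuous_snd)
  have hV : IsOpen {x : ℝ × ℝ | d * x.2 < x.1} :=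
    isOpen_lt (continuous_const.mul continuous_snd) continuous_fst
  obtain ⟨z, hz, hz1, hz2⟩ := hc _ _ hU hV (by
    intro z hz
    obtain ⟨c, hcZ, r, hr, rfl⟩ := hA hz
    have hr0 : 0 < r := by
      rcases hr.1.lt_or_eq with h | h
      · exact h
      · exfalso; apply h0; rw [← h] at hz; simpa [pt] using hz
    rcases lt_trichotomy c d with h | h | h
    · left
      show c * r < d * r
      exact mul_lt_mul_of_pos_right h hr0
    · exact absurd (h ▸ hcZ) hd
    · right
      show d * r < c * r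
      exact mul_lt_mul_of_pos_right h hr0)
    ⟨_, hx, show a * s < d * s from mul_lt_mul_of_pos_right h1 hs⟩
    ⟨_, hy, show d * t < b * t from mul_lt_mul_of_pos_right h2 ht⟩
  have g1 : z.1 < d * z.2 := hz1
  have g2 : d * z.2 < z.1 := hz2
  exact lt_asymm g1 g2

/-- The retraction fixes the subcontinua. -/
theorem R_fix (hZ : Good Z) {A : NC} (hA : (A : Set (ℝ × ℝ)) ⊆ Fan Z)
    (hc : IsConnected (A : Set (ℝ × ℝ))) : R A = A := by
  classical
  unfold R
  by_cases h0 : (0, 0) ∈ A
  · rw [if_pos h0]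
    apply NonemptyCompacts.ext
    apply Set.Subset.antisymm
    · intro x hx
      obtain ⟨u, hu, y, hy, rfl⟩ := mem_cone.1 hx
      by_contra hz
      obtain ⟨a, ha, s, hs, rfl⟩ := hA hy
      have hz' : pt a (u * s) ∉ (A : Set (ℝ × ℝ)) := by
        intro h
        apply hz
        have : ((1 * u * (pt a s).1, 1 * u * (pt a s).2) : ℝ × ℝ) = pt a (u * s) := by
          simp only [pt]
          ext <;> simp only
          · ring
          · ring
        rw [this]
        exact h
      have hs0 : 0 < s := by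
        rcases hs.1.lt_or_eq with h | h
        · exact h
        · exfalso; apply hz'; rw [← h]; simpa [pt] using h0
      have hu0 : 0 < u := by
        rcases hu.1.lt_or_eq with h | h
        · exact h
        · exfalso; apply hz'; rw [← h]; simpa [pt] using h0
      have hu1 : u < 1 := by
        rcases hu.2.lt_or_eq with h | h
        · exact h
        · exfalso; apply hz'; rw [h, one_mul]; exact hy
      have ht0 : 0 < u * s := mul_pos hu0 hs0
      have ht1 : u * s < s := by nlinarith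
      obtain ⟨ε, hε, hball⟩ := Metric.isOpen_iff.1 A.isCompact.isClosed.isOpen_compl _ hz'
      obtain ⟨c, hc1, hc2, hcZ⟩ := exists_gap hZ (show a - ε < a by linarith)
      obtain ⟨d, hd1, hd2, hdZ⟩ := exists_gap hZ (show a < a + ε by linarith)
      have hU : IsOpen {x : ℝ × ℝ | c * x.2 < x.1 ∧ x.1 < d * x.2 ∧ u * s < x.2} :=
        (isOpen_lt (continuous_const.mul continuous_snd) continuous_fst).inter
          ((isOpen_lt continuous_fst (continuous_const.mul continuous_snd)).inter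
            (isOpen_lt continuous_const continuous_snd))
      have hV : IsOpen {x : ℝ × ℝ | x.2 < u * s ∨ x.1 < c * x.2 ∨ d * x.2 < x.1} :=
        (isOpen_lt continuous_snd continuous_const).union
          ((isOpen_lt continuous_fst (continuous_const.mul continuous_snd)).union
            (isOpen_lt (continuous_const.mul continuous_snd) continuous_fst))
      obtain ⟨z, hz, hz1, hz2⟩ := hc.isPreconnected _ _ hU hV (by
        intro z hz
        obtain ⟨b, hb, r, hr, rfl⟩ := hA hz
        rcases hr.1.lt_or_eq with hr0 | hr0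
        · rcases lt_trichotomy b c with h | h | h
          · right; right; left
            show b * r < c * r
            exact mul_lt_mul_of_pos_right h hr0
          · exact absurd (h ▸ hb) hcZ
          rcases lt_trichotomy b d with h' | h' | h'
          · rcases lt_trichotomy r (u * s) with h3 | h3 | h3
            · right; left; exact h3
            · exfalso
              refine hball ?_ hz
              rw [mem_ball, Prod.dist_eq, Real.dist_eq, Real.dist_eq, h3]
              simp only [pt, sub_self, abs_zero]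
              rw [← sub_mul, abs_mul, abs_of_pos ht0]
              refine max_lt ?_ hε
              have h5 : |b - a| < ε := by rw [abs_lt]; constructor <;> linarith
              have h6 : u * s ≤ 1 := mul_le_one₀ hu.2 hs.1 hs.2
              calc |b - a| * (u * s) ≤ |b - a| * 1 :=
                    mul_le_mul_of_nonneg_left h6 (abs_nonneg _)
                _ < ε := by rw [mul_one]; exact h5
            · left
              exact ⟨show c * r < b * r from mul_lt_mul_of_pos_right h hr0,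
                show b * r < d * r from mul_lt_mul_of_pos_right h' hr0, h3⟩
          · exact absurd (h' ▸ hb) hdZ
          · right; right; right
            show d * r < b * r
            exact mul_lt_mul_of_pos_right h' hr0
        · right; left
          show r < u * s
          rw [← hr0]
          exact ht0)
        ⟨_, hy, show c * s < a * s from mul_lt_mul_of_pos_right hc2 hs0,
          show a * s < d * s from mul_lt_mul_of_pos_right hd1 hs0, ht1⟩
        ⟨_, h0, show (0 : ℝ) < u * s ∨ _ from Or.inl ht0⟩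
      obtain ⟨g1, g2, g3⟩ := hz1
      rcases hz2 with g | g | g
      · exact lt_asymm g3 g
      · exact lt_asymm g1 g
      · exact lt_asymm g2 g
    · intro x hx
      exact mem_cone.2 ⟨1, ⟨zero_le_one, le_refl _⟩, x, hx, by simp⟩
  · obtain ⟨hsl, ⟨y, hy, hye⟩, _⟩ := sl_facts hA h0
    have hs : ∀ x ∈ A, x.1 = sl A * x.2 := by
      intro x hx
      by_contra hne
      have hlt : x.1 < sl A * x.2 := lt_of_le_of_ne (hsl x hx) hne
      have hx2 := pos2 hA h0 hx
      have hy2 := pos2 hA h0 hy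
      obtain ⟨b, hb, r, hr, rfl⟩ := hA hx
      have hlt' : b * r < sl A * r := hlt
      have hbs : b < sl A := lt_of_mul_lt_mul_right hlt' hr.1
      have hy' : y = pt (sl A) y.2 := Prod.ext hye rfl
      rw [hy'] at hy
      exact conn_single hZ hA hc.isPreconnected h0 hx hy hx2 hy2 hbs
    rw [if_neg h0, if_pos hs]
    apply NonemptyCompacts.ext
    apply Set.Subset.antisymm
    · intro x hx
      obtain ⟨s, hs', rfl⟩ := mem_seg.1 hx
      rw [uIcc_of_le (lo_le_hi A)] at hs'
      obtain ⟨x1, hx1, e1⟩ := lo_mem A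
      obtain ⟨x2, hx2, e2⟩ := hi_mem A
      have h1 : IsPreconnected (Prod.snd '' (A : Set (ℝ × ℝ))) :=
        hc.isPreconnected.image _ continuous_snd.continuousOn
      have h2 := h1.ordConnected.out ⟨x1, hx1, rfl⟩ ⟨x2, hx2, rfl⟩
      rw [e1, e2] at h2
      obtain ⟨w, hw, rfl⟩ := h2 hs'
      have : pt (sl A) w.2 = w := Prod.ext (hs w hw).symm rfl
      rw [this]
      exact hw
    · intro x hx
      refine mem_seg.2 ⟨x.2, ?_, Prod.ext (hs x hx) rfl⟩
      rw [uIcc_of_le (lo_le_hi A)]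
      exact ⟨lo_le A hx, le_hi A hx⟩

/-- The hyperspace of subcontinua of the fan is a retract of the hyperspace of nonempty compact
subsets. -/
theorem fan_ret (hZ : Good Z) : ∃ r : NonemptyCompacts (Fan Z) → NonemptyCompacts (Fan Z),
    Continuous r ∧ (∀ A : NonemptyCompacts (Fan Z), IsConnected (r A : Set (Fan Z))) ∧
      ∀ A : NonemptyCompacts (Fan Z), IsConnected (A : Set (Fan Z)) → r A = A := by
  have hemb : IsEmbedding (Subtype.val : Fan Z → ℝ × ℝ) := IsEmbedding.subtypeVal
  let e : NonemptyCompacts (Fan Z) → NC := NonemptyCompacts.map Subtype.val hemb.continuous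
  have he : IsEmbedding e := hemb.nonemptyCompacts_map
  have hsub : ∀ A, (e A : Set (ℝ × ℝ)) ⊆ Fan Z := by
    intro A x hx
    obtain ⟨y, -, rfl⟩ := hx
    exact y.2
  have hex : ∀ A, ∃ B, e B = R (e A) := by
    intro A
    have h1 := NonemptyCompacts.range_map hemb.isInducing
    have h2 : R (e A) ∈ {K : NC | (K : Set (ℝ × ℝ)) ⊆ range (Subtype.val : Fan Z → ℝ × ℝ)} := by
      rw [Subtype.range_coe]
      exact R_sub hZ (hsub A)
    rw [← h1] at h2
    exact h2
  choose r hr using hex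
  refine ⟨r, ?_, ?_, ?_⟩
  · rw [he.continuous_iff]
    have : e ∘ r = fun A => R (e A) := funext hr
    rw [this]
    exact (R_cont hZ).comp_continuous he.continuous hsub
  · intro A
    have h1 : IsConnected (Subtype.val '' (r A : Set (Fan Z))) := by
      have h2 := R_conn (e A)
      rw [← hr A] at h2
      exact h2
    exact ⟨h1.nonempty.of_image, hemb.isInducing.isPreconnected_image.1 h1.isPreconnected⟩
  · intro A hA
    apply he.injective
    rw [hr A]
    exact R_fix hZ (hsub A) (hA.image _ hemb.continuous.continuousOn)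

/-- The fan is not locally connected. -/
theorem not_lc (hZ : Good Z) : ¬ LocallyConnectedSpace (Fan Z) := by
  intro h
  have hx0 : pt 0 1 ∈ Fan Z := ⟨0, hZ.zero, 1, ⟨zero_le_one, le_refl _⟩, rfl⟩
  have hU : {y : Fan Z | (1 / 2 : ℝ) < y.1.2} ∈ 𝓝 (⟨pt 0 1, hx0⟩ : Fan Z) := by
    refine (isOpen_lt continuous_const (continuous_snd.comp continuous_subtype_val)).mem_nhds ?_
    show (1 / 2 : ℝ) < 1
    norm_num
  obtain ⟨V, hV, hVc, hVU⟩ := locallyConnectedSpace_iff_connected_subsets.1 h _ _ hU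
  obtain ⟨W, hW, hWV⟩ := mem_nhds_subtype _ _ _ |>.1 hV
  obtain ⟨ε, hε, hball⟩ := Metric.mem_nhds_iff.1 hW
  obtain ⟨a, ha, ha0, haε⟩ := hZ.lim ε hε
  have ha1 : pt a 1 ∈ Fan Z := ⟨a, ha, 1, ⟨zero_le_one, le_refl _⟩, rfl⟩
  have h1 : (⟨pt a 1, ha1⟩ : Fan Z) ∈ V := by
    apply hWV
    apply hball
    rw [mem_ball, Prod.dist_eq]
    simp only [pt, mul_one, dist_self]
    rw [Real.dist_eq, sub_zero, abs_of_pos ha0]
    exact max_lt haε hε
  have h0 : (⟨pt 0 1, hx0⟩ : Fan Z) ∈ V := mem_of_mem_nhds hV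
  refine conn_single hZ (A := Subtype.val '' V) ?_ (hVc.image _ continuous_subtype_val.continuousOn)
    ?_ ⟨_, h0, rfl⟩ ⟨_, h1, rfl⟩ one_pos one_pos ha0
  · rintro _ ⟨y, -, rfl⟩
    exact y.2
  · rintro ⟨y, hy, he⟩
    have := hVU hy
    have h2 : (1 / 2 : ℝ) < y.1.2 := this
    rw [he] at h2
    norm_num at h2

end Q172.Fan
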